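import Pool.Agent.Helper91.BE.Count

/-!
The question of MP_2f7936_co: for every fixed `k`, the column `n ↦ BoEl n k` (`n ≥ k`) of the
triangle of Boolean-Eulerian numbers is log-concave.  Bicolored decreasing binary trees and the
numbers `BoEl n k` are defined in `Pool.Agent.Helper91.BE.Defs`.
-/

set_option autoImplicit false

namespace Pool.Agent.Results.MP_2f7936_co.Q1

open Pool.Agent.Helper91.BE

theorem result (k : ℕ) (hk : 1 ≤ k) :
    (∀ n : ℕ, k ≤ n → 0 < BoEl n k) ∧
    (∀ n : ℕ, k + 1 ≤ n → BoEl (n - 1) k * BoEl (n + 1) k ≤ BoEl n k ^ 2) := by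
  refine ⟨fun n hn => ?_, fun n hn => BoEl_logconcave k n hk hn⟩
  have h1 := BoEl_eq n k hk hn
  have h2 := aa_pos (k - 1) (n - k)
  rw [← h1] at h2
  exact_mod_cast h2

end Pool.Agent.Results.MP_2f7936_co.Q1
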